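import Mathlib

/-!
# FV2 K6: exchange of the order of integration on the triangle, and the symmetry argument
-/

set_option autoImplicit false

open Complex MeasureTheory Metric Set Filter Topology ComplexConjugate

namespace Pool.Agent.E8helper13.FV

theorem conj_int (f : ℝ → ℂ) (p q : ℝ) :
    conj (∫ s in p..q, f s) = ∫ s in p..q, conj (f s) := by
  simp only [intervalIntegral, map_sub, integral_conj]

/-- Exchange of the order of integration on a triangle. -/
theorem tri_swap (F : ℝ → ℝ → ℂ) (hF : Continuous (Function.uncurry F)) {T : ℝ} (hT : 0 ≤ T) :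
    ∫ t in (0 : ℝ)..T, ∫ s in (0 : ℝ)..t, F t s = ∫ s in (0 : ℝ)..T, ∫ t in s..T, F t s := by
  let S : Set (ℝ × ℝ) := {p | p.2 < p.1}
  have hS : MeasurableSet S := measurableSet_lt measurable_snd measurable_fst
  have hint : Integrable (S.indicator (Function.uncurry F))
      ((volume.restrict (Ioc 0 T)).prod (volume.restrict (Ioc 0 T))) := by
    refine Integrable.indicator ?_ hS
    rw [Measure.prod_restrict]
    have h1 : IntegrableOn (Function.uncurry F) (Icc 0 T ×ˢ Icc 0 T)
        ((volume : Measure ℝ).prod volume) :=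
      hF.continuousOn.integrableOn_compact (isCompact_Icc.prod isCompact_Icc)
    exact h1.mono_set (prod_mono Ioc_subset_Icc_self Ioc_subset_Icc_self)
  have hswap := integral_integral_swap (f := fun t s => S.indicator (Function.uncurry F) (t, s))
    (μ := volume.restrict (Ioc 0 T)) (ν := volume.restrict (Ioc 0 T)) (E := ℂ) hint
  rw [intervalIntegral.integral_of_le hT, intervalIntegral.integral_of_le hT]
  have hl : ∫ t in Ioc 0 T, ∫ s in Ioc 0 T, S.indicator (Function.uncurry F) (t, s) =
      ∫ t in Ioc 0 T, ∫ s in (0 : ℝ)..t, F t s := by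
    refine setIntegral_congr_fun measurableSet_Ioc fun t ht => ?_
    rw [intervalIntegral.integral_of_le ht.1.le,
      integral_Ioc_eq_integral_Ioo (μ := volume) (f := fun s => F t s) (x := 0) (y := t)]
    have h1 : (fun s => S.indicator (Function.uncurry F) (t, s)) =
        (Iio t).indicator (fun s => F t s) := by
      funext s
      by_cases h : s < t
      · rw [indicator_of_mem (show (t, s) ∈ S from h), indicator_of_mem (show s ∈ Iio t from h)]
        rfl
      · rw [indicator_of_notMem (show (t, s) ∉ S from h),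
          indicator_of_notMem (show s ∉ Iio t from h)]
    rw [h1, setIntegral_indicator measurableSet_Iio]
    congr 2
    ext s
    constructor
    · rintro ⟨h2, h3⟩
      exact ⟨h2.1, h3⟩
    · rintro ⟨h2, h3⟩
      exact ⟨⟨h2, h3.le.trans ht.2⟩, h3⟩
  have hr : ∫ s in Ioc 0 T, ∫ t in Ioc 0 T, S.indicator (Function.uncurry F) (t, s) =
      ∫ s in Ioc 0 T, ∫ t in s..T, F t s := by
    refine setIntegral_congr_fun measurableSet_Ioc fun s hs => ?_
    rw [intervalIntegral.integral_of_le hs.2]
    have h1 : (fun t => S.indicator (Function.uncurry F) (t, s)) =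
        (Ioi s).indicator (fun t => F t s) := by
      funext t
      by_cases h : s < t
      · rw [indicator_of_mem (show (t, s) ∈ S from h), indicator_of_mem (show t ∈ Ioi s from h)]
        rfl
      · rw [indicator_of_notMem (show (t, s) ∉ S from h),
          indicator_of_notMem (show t ∉ Ioi s from h)]
    rw [h1, setIntegral_indicator measurableSet_Ioi]
    congr 2
    ext t
    constructor
    · rintro ⟨h2, h3⟩
      exact ⟨h3, h2.2⟩
    · rintro ⟨h2, h3⟩
      exact ⟨⟨hs.1.trans h2, h3⟩, h2⟩
  rw [← hl, ← hr]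
  exact hswap

/-- For a kernel `G` with vanishing full loops in the first variable: exchange of the variables. -/
theorem loop_swap (G : ℝ → ℝ → ℂ) (g : ℝ → ℂ) (hG : Continuous (Function.uncurry G))
    (hg : Continuous g) {T : ℝ} (hT : 0 ≤ T)
    (hloop : ∀ s, ∫ t in (0 : ℝ)..T, G t s = 0) :
    ∫ t in (0 : ℝ)..T, ∫ s in (0 : ℝ)..t, G t s * g s =
      - ∫ s in (0 : ℝ)..T, (∫ t in (0 : ℝ)..s, G t s) * g s := by
  rw [tri_swap (fun t s => G t s * g s) (hG.mul (hg.comp continuous_snd)) hT,
    ← intervalIntegral.integral_neg]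
  refine intervalIntegral.integral_congr fun s _ => ?_
  have hc : Continuous fun t => G t s := hG.comp (by fun_prop : Continuous fun t : ℝ => (t, s))
  have h1 := intervalIntegral.integral_add_adjacent_intervals
    (hc.intervalIntegrable (μ := volume) 0 s) (hc.intervalIntegrable (μ := volume) s T)
  rw [hloop] at h1
  rw [intervalIntegral.integral_mul_const, eq_neg_of_add_eq_zero_right h1]
  ring

theorem core1 (K3 K3' : ℝ → ℝ → ℂ) (xd : ℝ → ℂ) (c : ℂ) (hK : Continuous (Function.uncurry K3))
    (hxd : Continuous xd) {T : ℝ} (hT : 0 ≤ T) (hconj : ∀ t s, conj (K3' t s) = c * K3 t s)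
    (hsw : ∀ t s, K3 s t = -K3 t s) (hloop : ∀ s, ∫ t in (0 : ℝ)..T, K3 t s * xd t = 0) :
    conj (∫ t in (0 : ℝ)..T, (∫ s in (0 : ℝ)..t, K3' t s * xd s) * conj (xd t)) =
      c * ∫ t in (0 : ℝ)..T, (∫ s in (0 : ℝ)..t, K3 t s * xd s) * conj (xd t) := by
  have h1 : conj (∫ t in (0 : ℝ)..T, (∫ s in (0 : ℝ)..t, K3' t s * xd s) * conj (xd t)) =
      c * ∫ t in (0 : ℝ)..T, ∫ s in (0 : ℝ)..t, (K3 t s * xd t) * conj (xd s) := by
    rw [conj_int, ← intervalIntegral.integral_const_mul]
    refine intervalIntegral.integral_congr fun t _ => ?_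
    simp only [map_mul, conj_conj]
    rw [conj_int, ← intervalIntegral.integral_mul_const, ← intervalIntegral.integral_const_mul]
    refine intervalIntegral.integral_congr fun s _ => ?_
    simp only [map_mul, hconj]
    ring
  rw [h1, loop_swap (fun t s => K3 t s * xd t) (fun s => conj (xd s))
    (hK.mul (hxd.comp continuous_fst)) (continuous_conj.comp hxd) hT hloop,
    ← intervalIntegral.integral_neg]
  congr 1
  refine intervalIntegral.integral_congr fun s _ => ?_
  simp only [← neg_mul, ← intervalIntegral.integral_neg]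
  congr 1
  refine intervalIntegral.integral_congr fun t _ => ?_
  rw [hsw t s]

theorem core2 (K1 K2 K3 K1' K3' : ℝ → ℝ → ℂ) (x xd : ℝ → ℂ) (a : ℝ)
    (hK1 : Continuous (Function.uncurry K1)) (hK2 : Continuous (Function.uncurry K2))
    (hK3 : Continuous (Function.uncurry K3)) (hx : Continuous x)
    (hxd : Continuous xd) {T : ℝ} (hT : 0 ≤ T)
    (hconj3 : ∀ t s, conj (K3' t s) = (-(a : ℂ)) ^ 3 * K3 t s)
    (hconj1 : ∀ t s, conj (K1' t s) = -(a : ℂ) * K1 t s)
    (hsw3 : ∀ t s, K3 s t = -K3 t s) (hsw1 : ∀ t s, K1 s t = -K1 t s)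
    (hrec : ∀ t s, (x t - x s) * K1 t s + (a : ℂ) * (conj (x t) - conj (x s)) * K3 t s =
      2 * K2 t s)
    (hl1 : ∀ s, ∫ t in (0 : ℝ)..T, K1 t s * xd t = 0)
    (hl2 : ∀ s, ∫ t in (0 : ℝ)..T, K2 t s * xd t = 0)
    (hl3 : ∀ s, ∫ t in (0 : ℝ)..T, K3 t s * xd t = 0)
    (hK1' : Continuous fun t => ∫ s in (0 : ℝ)..t, K1' t s * xd s)
    (hK3' : Continuous fun t => ∫ s in (0 : ℝ)..t, K3' t s * xd s)
    (hh1 : Continuous fun t => ∫ s in (0 : ℝ)..t, K1 t s * xd s)
    (hh2 : Continuous fun t => ∫ s in (0 : ℝ)..t, K2 t s * xd s)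
    (hh3 : Continuous fun t => ∫ s in (0 : ℝ)..t, K3 t s * xd s) :
    conj ((∫ t in (0 : ℝ)..T, x t * (∫ s in (0 : ℝ)..t, K3' t s * xd s) * conj (xd t)) +
      (a : ℂ) * ∫ t in (0 : ℝ)..T, conj (x t) * (∫ s in (0 : ℝ)..t, K1' t s * xd s) *
        conj (xd t)) =
      (a : ℂ) ^ 2 * (2 * (∫ t in (0 : ℝ)..T, (∫ s in (0 : ℝ)..t, K2 t s * xd s) * conj (xd t)) -
      ((∫ t in (0 : ℝ)..T, x t * (∫ s in (0 : ℝ)..t, K1 t s * xd s) * conj (xd t)) +
      (a : ℂ) * ∫ t in (0 : ℝ)..T, conj (x t) * (∫ s in (0 : ℝ)..t, K3 t s * xd s) *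
        conj (xd t))) := by
  have hc : Continuous fun t => conj (x t) := continuous_conj.comp hx
  have hcd : Continuous fun t => conj (xd t) := continuous_conj.comp hxd
  -- the kernel
  obtain ⟨G, hG⟩ : ∃ G : ℝ → ℝ → ℂ, ∀ t s, G t s =
      ((a : ℂ) * conj (x t) * K3 t s + x t * K1 t s) * xd t := ⟨_, fun _ _ => rfl⟩
  have hGc : Continuous (Function.uncurry G) := by
    have : Function.uncurry G = fun p : ℝ × ℝ =>
        ((a : ℂ) * conj (x p.1) * Function.uncurry K3 p + x p.1 * Function.uncurry K1 p) *
          xd p.1 := by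
      funext p
      exact hG _ _
    rw [this]
    have e1 : Continuous fun p : ℝ × ℝ => conj (x p.1) := hc.comp continuous_fst
    have e2 : Continuous fun p : ℝ × ℝ => x p.1 := hx.comp continuous_fst
    have e3 : Continuous fun p : ℝ × ℝ => xd p.1 := hxd.comp continuous_fst
    exact (((continuous_const.mul e1).mul hK3).add (e2.mul hK1)).mul e3
  have hs1 : ∀ s, Continuous fun t => K1 t s * xd t := fun s =>
    (hK1.comp (by fun_prop : Continuous fun t : ℝ => (t, s))).mul hxd
  have hs2 : ∀ s, Continuous fun t => K2 t s * xd t := fun s =>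
    (hK2.comp (by fun_prop : Continuous fun t : ℝ => (t, s))).mul hxd
  have hs3 : ∀ s, Continuous fun t => K3 t s * xd t := fun s =>
    (hK3.comp (by fun_prop : Continuous fun t : ℝ => (t, s))).mul hxd
  have hloop : ∀ s, ∫ t in (0 : ℝ)..T, G t s = 0 := by
    intro s
    have e1 : ∀ t, G t s = 2 * (K2 t s * xd t) + x s * (K1 t s * xd t) +
        (a : ℂ) * conj (x s) * (K3 t s * xd t) := by
      intro t
      rw [hG]
      linear_combination (xd t) * hrec t s
    simp only [e1]
    rw [intervalIntegral.integral_add, intervalIntegral.integral_add,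
      intervalIntegral.integral_const_mul, intervalIntegral.integral_const_mul,
      intervalIntegral.integral_const_mul, hl1, hl2, hl3]
    · ring
    · exact (continuous_const.mul (hs2 s)).intervalIntegrable _ _
    · exact (continuous_const.mul (hs1 s)).intervalIntegrable _ _
    · exact ((continuous_const.mul (hs2 s)).add
        (continuous_const.mul (hs1 s))).intervalIntegrable _ _
    · exact (continuous_const.mul (hs3 s)).intervalIntegrable _ _
  -- left hand side
  have hL : conj ((∫ t in (0 : ℝ)..T, x t * (∫ s in (0 : ℝ)..t, K3' t s * xd s) * conj (xd t)) +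
      (a : ℂ) * ∫ t in (0 : ℝ)..T, conj (x t) * (∫ s in (0 : ℝ)..t, K1' t s * xd s) *
        conj (xd t)) =
      -(a : ℂ) ^ 2 * ∫ t in (0 : ℝ)..T, ∫ s in (0 : ℝ)..t, G t s * conj (xd s) := by
    rw [← intervalIntegral.integral_const_mul, ← intervalIntegral.integral_add, conj_int,
      ← intervalIntegral.integral_const_mul]
    · refine intervalIntegral.integral_congr fun t _ => ?_
      simp only [map_mul, map_add, conj_conj, conj_ofReal]
      rw [conj_int, conj_int]
      have e1 : ∫ s in (0 : ℝ)..t, conj (K3' t s * xd s) =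
          (-(a : ℂ)) ^ 3 * ∫ s in (0 : ℝ)..t, K3 t s * conj (xd s) := by
        rw [← intervalIntegral.integral_const_mul]
        refine intervalIntegral.integral_congr fun s _ => ?_
        simp only [map_mul, hconj3]
        ring
      have e2 : ∫ s in (0 : ℝ)..t, conj (K1' t s * xd s) =
          (-(a : ℂ)) * ∫ s in (0 : ℝ)..t, K1 t s * conj (xd s) := by
        rw [← intervalIntegral.integral_const_mul]
        refine intervalIntegral.integral_congr fun s _ => ?_
        simp only [map_mul, hconj1]
        ring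
      have e3 : ∫ s in (0 : ℝ)..t, G t s * conj (xd s) =
          (a : ℂ) * conj (x t) * xd t * (∫ s in (0 : ℝ)..t, K3 t s * conj (xd s)) +
          x t * xd t * (∫ s in (0 : ℝ)..t, K1 t s * conj (xd s)) := by
        rw [← intervalIntegral.integral_const_mul, ← intervalIntegral.integral_const_mul,
          ← intervalIntegral.integral_add]
        · refine intervalIntegral.integral_congr fun s _ => ?_
          simp only [hG]
          ring
        · exact (continuous_const.mul ((hK3.comp
            (by fun_prop : Continuous fun s : ℝ => (t, s))).mul hcd)).intervalIntegrable _ _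
        · exact (continuous_const.mul ((hK1.comp
            (by fun_prop : Continuous fun s : ℝ => (t, s))).mul hcd)).intervalIntegrable _ _
      rw [e1, e2, e3]
      ring
    · exact ((hx.mul hK3').mul hcd).intervalIntegrable _ _
    · exact (continuous_const.mul ((hc.mul hK1').mul hcd)).intervalIntegrable _ _
  rw [hL, loop_swap G (fun s => conj (xd s)) hGc hcd hT hloop]
  -- right hand side
  have hR : ∫ s in (0 : ℝ)..T, (∫ t in (0 : ℝ)..s, G t s) * conj (xd s) =
      2 * (∫ t in (0 : ℝ)..T, (∫ s in (0 : ℝ)..t, K2 t s * xd s) * conj (xd t)) -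
      ((∫ t in (0 : ℝ)..T, x t * (∫ s in (0 : ℝ)..t, K1 t s * xd s) * conj (xd t)) +
      (a : ℂ) * ∫ t in (0 : ℝ)..T, conj (x t) * (∫ s in (0 : ℝ)..t, K3 t s * xd s) *
        conj (xd t)) := by
    rw [← intervalIntegral.integral_const_mul, ← intervalIntegral.integral_const_mul,
      ← intervalIntegral.integral_add, ← intervalIntegral.integral_sub]
    · refine intervalIntegral.integral_congr fun s _ => ?_
      have e1 : ∫ t in (0 : ℝ)..s, G t s =
          2 * (∫ t in (0 : ℝ)..s, K2 s t * xd t) - (x s * (∫ t in (0 : ℝ)..s, K1 s t * xd t) +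
          (a : ℂ) * conj (x s) * ∫ t in (0 : ℝ)..s, K3 s t * xd t) := by
        rw [← intervalIntegral.integral_const_mul, ← intervalIntegral.integral_const_mul,
          ← intervalIntegral.integral_const_mul, ← intervalIntegral.integral_add,
          ← intervalIntegral.integral_sub]
        · refine intervalIntegral.integral_congr fun t _ => ?_
          simp only [hG]
          have e2 := hrec s t
          have e3 := hsw3 s t
          have e4 := hsw1 s t
          rw [e3, e4]
          linear_combination (xd t) * e2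
        · exact (continuous_const.mul ((hK2.comp
            (by fun_prop : Continuous fun t : ℝ => (s, t))).mul hxd)).intervalIntegrable _ _
        · exact ((continuous_const.mul ((hK1.comp
            (by fun_prop : Continuous fun t : ℝ => (s, t))).mul hxd)).add
            (continuous_const.mul ((hK3.comp
            (by fun_prop : Continuous fun t : ℝ => (s, t))).mul hxd))).intervalIntegrable _ _
        · exact (continuous_const.mul ((hK1.comp
            (by fun_prop : Continuous fun t : ℝ => (s, t))).mul hxd)).intervalIntegrable _ _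
        · exact (continuous_const.mul ((hK3.comp
            (by fun_prop : Continuous fun t : ℝ => (s, t))).mul hxd)).intervalIntegrable _ _
      rw [e1]
      ring
    · exact (continuous_const.mul (hh2.mul hcd)).intervalIntegrable _ _
    · exact (((hx.mul hh1).mul hcd).add
        (continuous_const.mul ((hc.mul hh3).mul hcd))).intervalIntegrable _ _
    · exact ((hx.mul hh1).mul hcd).intervalIntegrable _ _
    · exact (continuous_const.mul ((hc.mul hh3).mul hcd)).intervalIntegrable _ _
  rw [hR]
  ring

end Pool.Agent.E8helper13.FV
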