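import Pool.Agent.E8helper4.FV.Stm2
import Pool.Agent.E8helper13.FV.K6core

/-!
# FV2 K6
-/

set_option autoImplicit false

open Complex MeasureTheory Metric Set Filter Topology ComplexConjugate

namespace Pool.Agent.E8helper13.FV

open Pool.Agent.E8helper4.FV

variable {φ : ℂ → ℂ} {r : ℝ}

theorem circ_mem (hr : 1 < r) (t : ℝ) : exp ((t : ℂ) * I) ∈ ball (0 : ℂ) r := by
  rw [mem_ball_zero_iff, norm_exp_ofReal_mul_I]
  exact hr

theorem cont_xx (hr : 1 < r) (hφ : DifferentiableOn ℂ φ (ball 0 r)) : Continuous (xx φ) := by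
  unfold xx
  exact hφ.continuousOn.comp_continuous (by fun_prop) (circ_mem hr)

theorem cont_xd (hr : 1 < r) (hφ : DifferentiableOn ℂ φ (ball 0 r)) : Continuous (xd φ) := by
  unfold xd
  have h1 : Continuous fun t : ℝ => deriv φ (exp ((t : ℂ) * I)) :=
    (hφ.deriv isOpen_ball).continuousOn.comp_continuous (by fun_prop) (circ_mem hr)
  exact ((continuous_const.mul (by fun_prop)).mul h1)

/-- the kernel -/
noncomputable def KK (a : ℝ) (φ : ℂ → ℂ) (m : ℤ) (t s : ℝ) : ℂ :=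
  kp m (xx φ t - xx φ s) (-(a : ℂ) * (conj (xx φ t) - conj (xx φ s)))

theorem cont_KK (hK1 : K1) (a : ℝ) (hr : 1 < r) (hφ : DifferentiableOn ℂ φ (ball 0 r)) (m : ℤ) :
    Continuous (Function.uncurry (KK a φ m)) := by
  have hx := cont_xx hr hφ
  have h1 : Continuous fun p : ℝ × ℝ => (xx φ p.1 - xx φ p.2,
      -(a : ℂ) * (conj (xx φ p.1) - conj (xx φ p.2))) := by
    have e1 : Continuous fun p : ℝ × ℝ => xx φ p.1 := hx.comp continuous_fst
    have e2 : Continuous fun p : ℝ × ℝ => xx φ p.2 := hx.comp continuous_snd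
    exact (e1.sub e2).prodMk (continuous_const.mul
      ((continuous_conj.comp e1).sub (continuous_conj.comp e2)))
  obtain ⟨h2, _⟩ := hK1 m
  have h3 : Function.uncurry (KK a φ m) = fun p : ℝ × ℝ => (fun q : ℂ × ℂ => kp m q.1 q.2)
      (xx φ p.1 - xx φ p.2, -(a : ℂ) * (conj (xx φ p.1) - conj (xx φ p.2))) := by
    funext p
    rfl
  rw [h3]
  exact h2.comp h1

theorem conj_KK (hK1 : K1) (hK1b : K1b) {a : ℝ} (ha : 0 < a) (m : ℤ) (t s : ℝ) :
    conj (KK a φ (-m) t s) = (-(a : ℂ)) ^ m * KK a φ m t s := by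
  have ha' : -(a : ℂ) ≠ 0 := neg_ne_zero.2 (by exact_mod_cast ha.ne')
  obtain ⟨_, _, _, _, _, hsym, _, hconj, _⟩ := hK1 (-m)
  obtain ⟨_, _, _, hscal, _⟩ := hK1b
  unfold KK
  rw [hconj, hsym, neg_neg]
  simp only [map_mul, map_sub, map_neg, conj_conj, conj_ofReal]
  exact hscal m _ _ _ ha'

theorem swap_KK (hK1 : K1) (a : ℝ) (m : ℤ) (t s : ℝ) :
    KK a φ m s t = (-1) ^ m * KK a φ m t s := by
  obtain ⟨_, _, _, _, _, _, hpar, _, _⟩ := hK1 m
  unfold KK
  rw [← hpar]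
  congr 1
  · ring
  · ring

theorem rec_KK (hK1 : K1) (a : ℝ) (t s : ℝ) :
    (xx φ t - xx φ s) * KK a φ 1 t s +
      (a : ℂ) * (conj (xx φ t) - conj (xx φ s)) * KK a φ 3 t s = 2 * KK a φ 2 t s := by
  obtain ⟨_, _, _, _, _, _, _, _, hrec⟩ := hK1 2
  unfold KK
  have h1 := hrec (xx φ t - xx φ s) (-(a : ℂ) * (conj (xx φ t) - conj (xx φ s)))
  have e1 : (2 : ℤ) - 1 = 1 := by norm_num
  have e2 : (2 : ℤ) + 1 = 3 := by norm_num
  rw [e1, e2] at h1
  have e3 : ((2 : ℤ) : ℂ) = 2 := by norm_num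
  rw [e3] at h1
  rw [← h1]
  ring

theorem loop_KK (hC1 : C1) {lam : ℝ} (hr : 1 < r)
    (hφ : DifferentiableOn ℂ φ (ball 0 r)) (hinj : InjOn φ (ball 0 r)) (hlam : 0 < lam)
    (hsol : Pool.Agent.Results.MP_83fd13_an.BranchSingularities.Solvable (φ '' ball 0 1) lam)
    (m : ℤ) (s : ℝ) :
    ∫ t in (0 : ℝ)..(2 * Real.pi), KK (lam / 4) φ m t s * xd φ t = 0 := by
  have hx := cont_xx hr hφ
  have hd := cont_xd hr hφ
  have h1 : ∀ t, KK (lam / 4) φ m t s * xd φ t = 1 / (2 * Real.pi) *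
      ∫ τ in (0 : ℝ)..(2 * Real.pi), exp (exp ((τ : ℂ) * I) * (xx φ t - xx φ s) +
        exp (-((τ : ℂ) * I)) * (-((lam / 4 : ℝ) : ℂ) * (conj (xx φ t) - conj (xx φ s))) -
        (m : ℂ) * (τ : ℂ) * I) * xd φ t := by
    intro t
    unfold KK kp
    rw [intervalIntegral.integral_mul_const, mul_assoc]
  simp only [h1]
  rw [intervalIntegral.integral_const_mul, intervalIntegral_intervalIntegral_swap]
  · have h2 : ∀ τ : ℝ, ∫ t in (0 : ℝ)..(2 * Real.pi),
        exp (exp ((τ : ℂ) * I) * (xx φ t - xx φ s) +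
        exp (-((τ : ℂ) * I)) * (-((lam / 4 : ℝ) : ℂ) * (conj (xx φ t) - conj (xx φ s))) -
        (m : ℂ) * (τ : ℂ) * I) * xd φ t = 0 := by
      intro τ
      have hαβ : exp ((τ : ℂ) * I) * (-((lam / 4 : ℝ) : ℂ) * exp (-((τ : ℂ) * I))) =
          -((lam / 4 : ℝ) : ℂ) := by
        rw [mul_left_comm, ← exp_add, add_neg_cancel, exp_zero, mul_one]
      have h3 := hC1 φ r lam hr hφ hinj hlam hsol _ _ hαβ
      rw [circleIntegral] at h3
      have h4 : ∀ t : ℝ, exp (exp ((τ : ℂ) * I) * (xx φ t - xx φ s) +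
          exp (-((τ : ℂ) * I)) * (-((lam / 4 : ℝ) : ℂ) * (conj (xx φ t) - conj (xx φ s))) -
          (m : ℂ) * (τ : ℂ) * I) * xd φ t =
          exp (-(exp ((τ : ℂ) * I) * xx φ s) +
            exp (-((τ : ℂ) * I)) * ((lam / 4 : ℝ) : ℂ) * conj (xx φ s) -
            (m : ℂ) * (τ : ℂ) * I) *
          (deriv (circleMap 0 1) t • (exp (exp ((τ : ℂ) * I) * φ (circleMap 0 1 t) +
            -((lam / 4 : ℝ) : ℂ) * exp (-((τ : ℂ) * I)) * conj (φ (circleMap 0 1 t))) *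
            deriv φ (circleMap 0 1 t))) := by
        intro t
        have hcm : circleMap 0 1 t = exp ((t : ℂ) * I) := by
          simp [circleMap]
        rw [deriv_circleMap, hcm, smul_eq_mul]
        unfold xd xx
        have h5 : exp (exp ((τ : ℂ) * I) * (φ (exp ((t : ℂ) * I)) - φ (exp ((s : ℂ) * I))) +
            exp (-((τ : ℂ) * I)) * (-((lam / 4 : ℝ) : ℂ) * (conj (φ (exp ((t : ℂ) * I))) -
              conj (φ (exp ((s : ℂ) * I))))) - (m : ℂ) * (τ : ℂ) * I) =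
            exp (-(exp ((τ : ℂ) * I) * φ (exp ((s : ℂ) * I))) +
            exp (-((τ : ℂ) * I)) * ((lam / 4 : ℝ) : ℂ) * conj (φ (exp ((s : ℂ) * I))) -
            (m : ℂ) * (τ : ℂ) * I) * exp (exp ((τ : ℂ) * I) * φ (exp ((t : ℂ) * I)) +
            -((lam / 4 : ℝ) : ℂ) * exp (-((τ : ℂ) * I)) * conj (φ (exp ((t : ℂ) * I)))) := by
          rw [← exp_add]
          congr 1
          ring
        rw [h5]
        ring
      simp only [h4]
      rw [intervalIntegral.integral_const_mul, h3, mul_zero]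
    simp only [h2]
    simp
  · have hc : Continuous (Function.uncurry fun t τ : ℝ =>
        exp (exp ((τ : ℂ) * I) * (xx φ t - xx φ s) +
        exp (-((τ : ℂ) * I)) * (-((lam / 4 : ℝ) : ℂ) * (conj (xx φ t) - conj (xx φ s))) -
        (m : ℂ) * (τ : ℂ) * I) * xd φ t) := by
      have e1 : Continuous fun p : ℝ × ℝ => xx φ p.1 := hx.comp continuous_fst
      have e2 : Continuous fun p : ℝ × ℝ => xd φ p.1 := hd.comp continuous_fst
      have e3 : Continuous fun p : ℝ × ℝ => conj (xx φ p.1) := continuous_conj.comp e1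
      show Continuous fun p : ℝ × ℝ => exp (exp ((p.2 : ℂ) * I) * (xx φ p.1 - xx φ s) +
        exp (-((p.2 : ℂ) * I)) * (-((lam / 4 : ℝ) : ℂ) * (conj (xx φ p.1) - conj (xx φ s))) -
        (m : ℂ) * (p.2 : ℂ) * I) * xd φ p.1
      refine Continuous.mul (Continuous.cexp ?_) e2
      refine Continuous.sub (Continuous.add ?_ ?_) (by fun_prop)
      · exact (by fun_prop : Continuous fun p : ℝ × ℝ => exp ((p.2 : ℂ) * I)).mul
          (e1.sub continuous_const)
      · exact (by fun_prop : Continuous fun p : ℝ × ℝ => exp (-((p.2 : ℂ) * I))).mul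
          (continuous_const.mul (e3.sub continuous_const))
    have h6 : IntegrableOn (Function.uncurry fun t τ : ℝ =>
        exp (exp ((τ : ℂ) * I) * (xx φ t - xx φ s) +
        exp (-((τ : ℂ) * I)) * (-((lam / 4 : ℝ) : ℂ) * (conj (xx φ t) - conj (xx φ s))) -
        (m : ℂ) * (τ : ℂ) * I) * xd φ t)
        (uIcc 0 (2 * Real.pi) ×ˢ uIcc 0 (2 * Real.pi)) :=
      hc.continuousOn.integrableOn_compact (isCompact_uIcc.prod isCompact_uIcc)
    exact h6.mono_set (prod_mono uIoc_subset_uIcc uIoc_subset_uIcc)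

/-- continuity of `H_m` -/
theorem cont_HH (hK1 : K1) (a : ℝ) (hr : 1 < r) (hφ : DifferentiableOn ℂ φ (ball 0 r)) (m : ℤ) :
    Continuous fun t => ∫ s in (0 : ℝ)..t, KK a φ m t s * xd φ s := by
  have hd := cont_xd hr hφ
  have h1 : Continuous (Function.uncurry fun t s => KK a φ m t s * xd φ s) :=
    (cont_KK hK1 a hr hφ m).mul (hd.comp continuous_snd)
  exact intervalIntegral.continuous_parametric_intervalIntegral_of_continuous h1 continuous_id

theorem t_K6 : K6 := by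
  intro hK1 hK1b hC1 φ r lam hr hφ hinj hlam hsol
  have ha : (0 : ℝ) < lam / 4 := by positivity
  have hx := cont_xx hr hφ
  have hd := cont_xd hr hφ
  have hpi : (0 : ℝ) ≤ 2 * Real.pi := by positivity
  have hc := fun m => cont_KK hK1 (lam / 4) hr hφ m
  have hl := fun m => loop_KK hC1 hr hφ hinj hlam hsol m
  have hH := fun m => cont_HH hK1 (lam / 4) hr hφ m
  have hconj3 : ∀ t s, conj (KK (lam / 4) φ (-3) t s) =
      (-((lam / 4 : ℝ) : ℂ)) ^ 3 * KK (lam / 4) φ 3 t s := by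
    intro t s
    exact conj_KK hK1 hK1b ha 3 t s
  have hconj1 : ∀ t s, conj (KK (lam / 4) φ (-1) t s) =
      -((lam / 4 : ℝ) : ℂ) * KK (lam / 4) φ 1 t s := by
    intro t s
    have := conj_KK (φ := φ) hK1 hK1b ha 1 t s
    rwa [zpow_one] at this
  have hsw3 : ∀ t s, KK (lam / 4) φ 3 s t = -KK (lam / 4) φ 3 t s := by
    intro t s
    rw [swap_KK hK1]
    norm_num
  have hsw1 : ∀ t s, KK (lam / 4) φ 1 s t = -KK (lam / 4) φ 1 t s := by
    intro t s
    rw [swap_KK hK1]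
    norm_num
  refine ⟨?_, ?_⟩
  · exact core1 (KK (lam / 4) φ 3) (KK (lam / 4) φ (-3)) (xd φ) _ (hc 3) hd hpi hconj3 hsw3 (hl 3)
  · exact core2 (KK (lam / 4) φ 1) (KK (lam / 4) φ 2) (KK (lam / 4) φ 3) (KK (lam / 4) φ (-1))
      (KK (lam / 4) φ (-3)) (xx φ) (xd φ) (lam / 4) (hc 1) (hc 2) (hc 3) hx hd hpi hconj3 hconj1
      hsw3 hsw1 (rec_KK hK1 _) (hl 1) (hl 2) (hl 3) (hH (-1)) (hH (-3)) (hH 1) (hH 2) (hH 3)

end Pool.Agent.E8helper13.FV
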